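import Pool.Agent.Lib.MP_2f3286_ag.GK.Unr

/-! Kummer extensions `N = F(x)`, `x^p = c`, which are unramified at a prime. -/

open Polynomial NumberField IsDedekindDomain Module

namespace FermGK

section val

variable {F : Type*} [Field F] {Γ : Type*} [LinearOrderedCommGroupWithZero Γ]

theorem val_root (v : Valuation F Γ) {p : ℕ} (hp : p ≠ 0) {ζ : F} (hζ : ζ ^ p = 1) : v ζ = 1 := by
  have h := congrArg v hζ
  rw [map_pow, map_one] at h
  exact (pow_eq_one_iff.mp h).resolve_right hp

theorem val_geom_le (v : Valuation F Γ) {z : F} (hz : v z = 1) (n : ℕ) :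
    v (1 - z ^ n) ≤ v (1 - z) := by
  rw [← mul_neg_geom_sum z n, map_mul]
  refine mul_le_of_le_one_right' ?_
  refine v.map_sum_le (fun i _ => ?_)
  rw [map_pow, hz, one_pow]

theorem val_p (v : Valuation F Γ) {p : ℕ} (hp : p.Prime) {ζ : F} (hζ : IsPrimitiveRoot ζ p) :
    v (p : F) = v (1 - ζ) ^ (p - 1) := by
  have h0 := hp.pos
  have hprim' : IsPrimitiveRoot ζ ((p - 1) + 1) := by
    rw [Nat.sub_add_cancel h0]; exact hζ
  have h1 := hprim'.prod_one_sub_pow_eq_order
  have h2 : ((p - 1 : ℕ) : F) + 1 = (p : F) := by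
    exact_mod_cast congrArg (Nat.cast (R := F)) (Nat.sub_add_cancel h0)
  rw [h2] at h1
  rw [← h1, map_prod]
  have hv1 : v ζ = 1 := val_root v hp.ne_zero hζ.pow_eq_one
  rw [Finset.prod_congr rfl (g := fun _ => v (1 - ζ)) (fun k hk => ?_), Finset.prod_const,
    Finset.card_range]
  have hk' := Finset.mem_range.mp hk
  apply le_antisymm (val_geom_le v hv1 (k + 1))
  have hd : ¬ p ∣ (k + 1) := fun hd => by
    have := Nat.le_of_dvd (Nat.succ_pos k) hd
    omega
  have hc : Nat.Coprime (k + 1) p := ((Nat.Prime.coprime_iff_not_dvd hp).mpr hd).symm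
  obtain ⟨m, -, hm⟩ := Nat.exists_mul_mod_eq_one_of_coprime hc hp.one_lt
  have e : ζ = (ζ ^ (k + 1)) ^ m := by
    rw [← pow_mul]
    conv_rhs => rw [← Nat.mod_add_div ((k + 1) * m) p, hm, pow_add, pow_mul, hζ.pow_eq_one,
      one_pow, mul_one, pow_one]
  have hv2 : v (ζ ^ (k + 1)) = 1 := by rw [map_pow, hv1, one_pow]
  conv_lhs => rw [e]
  exact val_geom_le v hv2 m

end val

section kum

variable {F N : Type*} [Field F] [NumberField F] [Field N] [NumberField N] [Algebra F N]

theorem liesOver_of_dvd (P : HeightOneSpectrum (𝓞 F)) (P' : HeightOneSpectrum (𝓞 N))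
    (h : P'.asIdeal ∣ P.asIdeal.map (algebraMap (𝓞 F) (𝓞 N))) :
    P'.asIdeal.LiesOver P.asIdeal := by
  have hprime' := P'.isPrime
  have hmax : P.asIdeal.IsMaximal := P.isMaximal
  refine ⟨?_⟩
  refine hmax.eq_of_le (Ideal.IsPrime.ne_top inferInstance) ?_
  exact Ideal.map_le_iff_le_comap.mp (Ideal.le_of_dvd h)

theorem val_one_up (P : HeightOneSpectrum (𝓞 F)) (P' : HeightOneSpectrum (𝓞 N))
    [P'.asIdeal.LiesOver P.asIdeal] {u : F} (hu : P.valuation F u = 1) :
    P'.valuation N (algebraMap F N u) = 1 := by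
  rw [← HeightOneSpectrum.valuation_liesOver N P P' u, hu, one_pow]

theorem val_nat_lt (P : HeightOneSpectrum (𝓞 F)) {n : ℕ} (h : (n : 𝓞 F) ∈ P.asIdeal) :
    P.valuation F (n : F) < 1 := by
  have h1 := (HeightOneSpectrum.valuation_lt_one_iff_mem (K := F) P _).mpr h
  have e : algebraMap (𝓞 F) F (n : 𝓞 F) = (n : F) := map_natCast _ _
  rw [← e]
  exact h1

theorem val_nat_one (P : HeightOneSpectrum (𝓞 F)) {n : ℕ} (h : (n : 𝓞 F) ∉ P.asIdeal) :
    P.valuation F (n : F) = 1 := by
  have h1 := (HeightOneSpectrum.valuation_eq_one_iff_notMem (K := F) P).mpr h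
  have e : algebraMap (𝓞 F) F (n : 𝓞 F) = (n : F) := map_natCast _ _
  rw [← e]
  exact h1

theorem val_nat_le (P : HeightOneSpectrum (𝓞 F)) (n : ℕ) :
    P.valuation F (n : F) ≤ 1 := by
  have h1 := HeightOneSpectrum.valuation_le_one (K := F) P (n : 𝓞 F)
  have e : algebraMap (𝓞 F) F (n : 𝓞 F) = (n : F) := map_natCast _ _
  rw [← e]
  exact h1

theorem unram_of_ne {p : ℕ} (hp : p.Prime) {x : N} {c : F} (hc : c ≠ 0)
    (hx : x ^ p = algebraMap F N c) (htop : IntermediateField.adjoin F {x} = ⊤)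
    (P : HeightOneSpectrum (𝓞 F)) (P' : HeightOneSpectrum (𝓞 N)) (hP : (p : 𝓞 F) ∉ P.asIdeal)
    {z : F} (hz : P.valuation F c = P.valuation F z ^ p) :
    ¬ P'.asIdeal ^ 2 ∣ P.asIdeal.map (algebraMap (𝓞 F) (𝓞 N)) := by
  intro hram
  have hlo := liesOver_of_dvd P P' ((dvd_pow_self _ two_ne_zero).trans hram)
  have hz0 : z ≠ 0 := by
    rintro rfl
    rw [map_zero, zero_pow hp.ne_zero] at hz
    exact hc ((Valuation.zero_iff _).mp hz)
  have hvz : P.valuation F z ≠ 0 := (Valuation.ne_zero_iff _).mpr hz0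
  have hz0' : algebraMap F N z ≠ 0 := by
    rwa [ne_eq, FaithfulSMul.algebraMap_eq_zero_iff]
  have hu : P.valuation F (c / z ^ p) = 1 := by
    rw [map_div₀, map_pow, hz, div_self (pow_ne_zero _ hvz)]
  set θ : N := x / algebraMap F N z with hθ
  have hθp : θ ^ p = algebraMap F N (c / z ^ p) := by
    rw [hθ, div_pow, hx, map_div₀, map_pow]
  have hvθ : P'.valuation N θ = 1 := by
    have h1 := val_one_up P P' hu
    rw [← hθp, map_pow] at h1
    exact (pow_eq_one_iff.mp h1).resolve_right hp.ne_zero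
  have hpF : P.valuation F (p : F) = 1 := val_nat_one P hP
  refine unram_of_poly P P' (X ^ p - C (c / z ^ p)) (monic_X_pow_sub_C _ hp.ne_zero) ?_
    (θ := θ) ?_ ?_ ?_ hram
  · intro i
    rw [coeff_sub, coeff_X_pow, coeff_C]
    refine (Valuation.map_sub _ _ _).trans (max_le ?_ ?_)
    · split_ifs
      · rw [map_one]
      · rw [map_zero]; exact zero_le
    · split_ifs
      · exact hu.le
      · rw [map_zero]; exact zero_le
  · rw [map_sub, map_pow, aeval_X, aeval_C, hθp, sub_self]
  · rw [← top_le_iff, ← htop, IntermediateField.adjoin_simple_le_iff]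
    have h1 : x = algebraMap F N z * θ := by
      rw [hθ, mul_div_cancel₀ _ hz0']
    rw [h1]
    exact mul_mem (IntermediateField.algebraMap_mem _ _)
      (IntermediateField.mem_adjoin_simple_self F θ)
  · rw [derivative_sub, derivative_X_pow, derivative_C, sub_zero, map_mul, map_pow, aeval_X,
      aeval_C, map_mul, map_pow, hvθ, one_pow, mul_one]
    exact val_one_up P P' hpF

theorem unram_of_dvd {p : ℕ} (hp : p.Prime) {ζ : F} (hζ : IsPrimitiveRoot ζ p) {x : N} {c : F}
    (hx : x ^ p = algebraMap F N c) (htop : IntermediateField.adjoin F {x} = ⊤)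
    (P : HeightOneSpectrum (𝓞 F)) (P' : HeightOneSpectrum (𝓞 N)) (hP : (p : 𝓞 F) ∈ P.asIdeal)
    (hz : P.valuation F (c - 1) ≤ P.valuation F (1 - ζ) ^ p) :
    ¬ P'.asIdeal ^ 2 ∣ P.asIdeal.map (algebraMap (𝓞 F) (𝓞 N)) := by
  intro hram
  have hlo := liesOver_of_dvd P P' ((dvd_pow_self _ two_ne_zero).trans hram)
  set π : F := 1 - ζ with hπ
  have hπ0 : π ≠ 0 := by
    rw [hπ, sub_ne_zero]
    exact (hζ.ne_one hp.one_lt).symm
  have hπ0' : algebraMap F N π ≠ 0 := by
    rwa [ne_eq, FaithfulSMul.algebraMap_eq_zero_iff]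
  have hvπ0 : P.valuation F π ≠ 0 := (Valuation.ne_zero_iff _).mpr hπ0
  have hvp : P.valuation F (p : F) = P.valuation F π ^ (p - 1) := val_p _ hp hζ
  have hvplt : P.valuation F (p : F) < 1 := val_nat_lt P hP
  have hvπlt : P.valuation F π < 1 := by
    by_contra h
    rw [not_lt] at h
    rw [hvp] at hvplt
    exact absurd (one_le_pow₀ h) (not_le.mpr hvplt)
  have hvc : P.valuation F c = 1 := by
    have h1 : P.valuation F (c - 1) < 1 :=
      hz.trans_lt (pow_lt_one₀ zero_le hvπlt hp.ne_zero)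
    have h2 := Valuation.map_add_eq_of_lt_right (P.valuation F) (x := c - 1) (y := 1)
      (by rw [map_one]; exact h1)
    rwa [sub_add_cancel, map_one] at h2
  have hvx : P'.valuation N x = 1 := by
    have h1 := val_one_up P P' hvc
    rw [← hx, map_pow] at h1
    exact (pow_eq_one_iff.mp h1).resolve_right hp.ne_zero
  set G : F[X] := C (π ^ p)⁻¹ * (((1 + X : F[X]) ^ p).comp (C π * X) - C c) with hG
  have hcoeff : ∀ i, G.coeff i = (π ^ p)⁻¹ * ((p.choose i : F) * π ^ i - if i = 0 then c else 0) := by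
    intro i
    rw [hG, coeff_C_mul, coeff_sub, comp_C_mul_X_coeff, coeff_one_add_X_pow, coeff_C]
  set θ : N := (x - 1) / algebraMap F N π with hθ
  have hθx : 1 + algebraMap F N π * θ = x := by
    rw [hθ, mul_div_cancel₀ _ hπ0']; ring
  refine unram_of_poly P P' G ?_ ?_ (θ := θ) ?_ ?_ ?_ hram
  · refine monic_of_natDegree_le_of_coeff_eq_one p ?_ ?_
    · rw [natDegree_le_iff_coeff_eq_zero]
      intro i hi
      rw [hcoeff, Nat.choose_eq_zero_of_lt hi, if_neg (by omega)]
      simp
    · rw [hcoeff, if_neg hp.ne_zero, Nat.choose_self]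
      rw [Nat.cast_one, one_mul, sub_zero, inv_mul_cancel₀ (pow_ne_zero _ hπ0)]
  · intro i
    rw [hcoeff, map_mul, map_inv₀, map_pow]
    rw [inv_mul_le_iff₀ (pow_pos (zero_lt_iff.mpr hvπ0) _), mul_one]
    rcases Nat.eq_zero_or_pos i with rfl | hi
    · rw [Nat.choose_zero_right, Nat.cast_one, pow_zero, mul_one, if_pos rfl,
        Valuation.map_sub_swap]
      exact hz
    · rw [if_neg hi.ne', sub_zero, map_mul, map_pow]
      rcases lt_trichotomy i p with h | h | h
      · obtain ⟨k, hk⟩ := hp.dvd_choose_self hi.ne' h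
        have h1 : P.valuation F (p.choose i : F) ≤ P.valuation F π ^ (p - 1) := by
          rw [hk, Nat.cast_mul, map_mul, hvp]
          exact mul_le_of_le_one_right' (val_nat_le P k)
        have h2 : P.valuation F π ^ i ≤ P.valuation F π := by
          calc P.valuation F π ^ i ≤ P.valuation F π ^ 1 :=
                pow_le_pow_right_of_le_one' hvπlt.le hi
            _ = _ := pow_one _
        calc P.valuation F (p.choose i : F) * P.valuation F π ^ i
            ≤ P.valuation F π ^ (p - 1) * P.valuation F π := mul_le_mul' h1 h2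
          _ = P.valuation F π ^ p := by rw [← pow_succ, Nat.sub_add_cancel hp.pos]
      · subst h
        rw [Nat.choose_self, Nat.cast_one, map_one, one_mul]
      · rw [Nat.choose_eq_zero_of_lt h, Nat.cast_zero, map_zero, zero_mul]
        exact zero_le
  · rw [hG, map_mul, aeval_C, map_sub, aeval_C, aeval_comp, map_pow, map_add, map_one, aeval_X,
      map_mul, aeval_C, aeval_X, hθx, hx, sub_self, mul_zero]
  · rw [← top_le_iff, ← htop, IntermediateField.adjoin_simple_le_iff, ← hθx]
    exact add_mem (one_mem _) (mul_mem (IntermediateField.algebraMap_mem _ _)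
      (IntermediateField.mem_adjoin_simple_self F θ))
  · have hd : aeval θ (derivative G) =
        algebraMap F N ((p : F) / π ^ (p - 1)) * x ^ (p - 1) := by
      rw [hG, derivative_C_mul, derivative_sub, derivative_C, sub_zero, derivative_comp,
        derivative_pow, derivative_C_mul, derivative_X]
      simp only [derivative_add, derivative_one, derivative_X, zero_add, mul_one, map_mul,
        aeval_C, aeval_comp, map_pow, map_add, map_one, aeval_X, map_natCast]
      rw [hθx, map_div₀, map_inv₀, map_pow, map_pow, map_natCast]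
      have h3 : algebraMap F N π ^ p = algebraMap F N π ^ (p - 1) * algebraMap F N π := by
        rw [← pow_succ, Nat.sub_add_cancel hp.pos]
      rw [h3]
      field_simp
    have hu : P.valuation F ((p : F) / π ^ (p - 1)) = 1 := by
      rw [map_div₀, map_pow, hvp, div_self (pow_ne_zero _ hvπ0)]
    rw [hd, map_mul, map_pow, hvx, one_pow, mul_one]
    exact val_one_up P P' hu

end kum

end FermGK
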