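import Pool.Agent.Lib.MP_2f3286_ag.GK.NoU

/-! (GK): a `p`-th power everywhere up to an unramified condition is a `p`-th power when the class
number is prime to `p`. -/

open NumberField Module IsDedekindDomain Polynomial

namespace FermGK

/-- `F` is a number field with a primitive `p`-th root of unity `ζ`, `p` odd, of class number prime
to `p`. A nonzero `c` whose order at every prime outside `p` is divisible by `p` and with
`c ≡ 1 mod (1-ζ)^p` at the primes above `p` is a `p`-th power. -/
theorem gk {F : Type*} [Field F] [NumberField F] {p : ℕ} (hp : p.Prime) (hp2 : p ≠ 2) {ζ : F}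
    (hζ : IsPrimitiveRoot ζ p) (hcl : p.Coprime (classNumber F)) {c : F} (hc : c ≠ 0)
    (h1 : ∀ P : HeightOneSpectrum (𝓞 F), (p : 𝓞 F) ∉ P.asIdeal →
      ∃ z : F, P.valuation F c = P.valuation F z ^ p)
    (h2 : ∀ P : HeightOneSpectrum (𝓞 F), (p : 𝓞 F) ∈ P.asIdeal →
      P.valuation F (c - 1) ≤ P.valuation F (1 - ζ) ^ p) :
    ∃ d : F, d ^ p = c := by
  classical
  by_contra hcon
  push_neg at hcon
  have hp2' : 2 < p := lt_of_le_of_ne hp.two_le (Ne.symm hp2)
  have H : Irreducible (X ^ p - C c : F[X]) := X_pow_sub_C_irreducible_of_prime hp hcon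
  have hζ0 : (primitiveRoots p F).Nonempty := ⟨ζ, (mem_primitiveRoots hp.pos).mpr hζ⟩
  let N := (X ^ p - C c : F[X]).SplittingField
  have hNF : NumberField N := NumberField.of_module_finite F N
  have hgal : IsGalois F N := isGalois_of_isSplittingField_X_pow_sub_C hζ0 H N
  have hfin : finrank F N = p := finrank_of_isSplittingField_X_pow_sub_C hζ0 H N
  have hx : (rootOfSplitsXPowSubC hp.pos c N) ^ p = algebraMap F N c := by
    have : NeZero p := ⟨hp.ne_zero⟩
    exact rootOfSplitsXPowSubC_pow c N
  have htop : IntermediateField.adjoin F {rootOfSplitsXPowSubC hp.pos c N} = ⊤ :=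
    IntermediateField.adjoin_root_eq_top_of_isSplittingField hζ0 H hx
  refine no_unram (F := F) (N := N) hp hp2' hζ hfin hcl (fun P P' => ?_)
  by_cases hP : (p : 𝓞 F) ∈ P.asIdeal
  · exact unram_of_dvd hp hζ hx htop P P' hP (h2 P hP)
  · obtain ⟨z, hz⟩ := h1 P hP
    exact unram_of_ne hp hc hx htop P P' hP hz

end FermGK
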