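import Pool.Agent.Lib.MP_2f3286_ag.GK.Idx

/-! Hilbert 90 for a cyclic group, for units, and the rank of the units. -/

open NumberField Module

namespace FermGK

variable {F N : Type*} [Field F] [NumberField F] [Field N] [NumberField N] [Algebra F N]

omit [NumberField F] [NumberField N] in
theorem hilb90 (g : Gal(N/F)) {p : ℕ} (hp : 0 < p) (hg : orderOf g = p) {η : N}
    (hη : ∏ i ∈ Finset.range p, (g ^ i) η = 1) : ∃ y : N, y ≠ 0 ∧ η * g y = y := by
  classical
  let c : ℕ → N := fun i => ∏ j ∈ Finset.range i, (g ^ j) η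
  have hc0 : c 0 = 1 := rfl
  have hcp : c p = 1 := hη
  have hcs : ∀ i, c (i + 1) = η * g (c i) := by
    intro i
    change ∏ j ∈ Finset.range (i + 1), (g ^ j) η = η * g (∏ j ∈ Finset.range i, (g ^ j) η)
    rw [Finset.prod_range_succ', map_prod, mul_comm]
    congr 1
    refine Finset.prod_congr rfl (fun j _ => ?_)
    rw [pow_succ']
    rfl
  have hli : LinearIndependent N (fun i : Fin p => (fun x => (g ^ (i : ℕ)) x : N → N)) := by
    have h1 := linearIndependent_monoidHom N N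
    have h2 := h1.comp (fun i : Fin p => (((g ^ (i : ℕ) : Gal(N/F)) : N →* N))) (by
      intro i j hij
      have h3 : g ^ (i : ℕ) = g ^ (j : ℕ) := by
        apply AlgEquiv.ext
        intro x
        exact DFunLike.congr_fun hij x
      have h4 := pow_injOn_Iio_orderOf (x := g)
        (show (i : ℕ) ∈ Set.Iio (orderOf g) by rw [hg]; exact i.2)
        (show (j : ℕ) ∈ Set.Iio (orderOf g) by rw [hg]; exact j.2) h3
      exact Fin.ext h4)
    exact h2
  obtain ⟨z, hz⟩ : ∃ z : N, ∑ i ∈ Finset.range p, c i * (g ^ i) z ≠ 0 := by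
    by_contra hcon
    push_neg at hcon
    rw [Fintype.linearIndependent_iff] at hli
    have h1 := hli (fun i => c i) (by
      funext z
      have h2 := hcon z
      rw [← Fin.sum_univ_eq_sum_range (fun i => c i * (g ^ i) z) p] at h2
      rw [Finset.sum_apply]
      exact h2) ⟨0, hp⟩
    exact one_ne_zero (hc0.symm.trans h1)
  refine ⟨_, hz, ?_⟩
  rw [map_sum, Finset.mul_sum]
  have h1 : ∀ i, η * g (c i * (g ^ i) z) = c (i + 1) * (g ^ (i + 1)) z := by
    intro i
    rw [map_mul, hcs, pow_succ', mul_assoc]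
    rfl
  rw [Finset.sum_congr rfl (fun i _ => h1 i)]
  have h2 := Finset.sum_range_succ' (fun i => c i * (g ^ i) z) p
  rw [Finset.sum_range_succ] at h2
  have h3 : c p * (g ^ p) z = c 0 * (g ^ 0) z := by
    rw [hcp, hc0, ← hg, pow_orderOf_eq_one, pow_zero]
  rw [h3] at h2
  exact (add_right_cancel h2).symm

omit [NumberField F] in
theorem hilb90_int (g : Gal(N/F)) {p : ℕ} (hp : 0 < p) (hg : orderOf g = p) {η : 𝓞 N}
    (hη : ∏ i ∈ Finset.range p, (g ^ i) • η = 1) : ∃ e : 𝓞 N, e ≠ 0 ∧ η * g • e = e := by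
  have h1 : ∏ i ∈ Finset.range p, (g ^ i) (η : N) = 1 := by
    have h2 := congrArg (algebraMap (𝓞 N) N) hη
    rw [map_prod, map_one] at h2
    exact h2
  obtain ⟨y, hy0, hy⟩ := hilb90 g hp hg h1
  have halg : IsAlgebraic ℤ y := by
    have h1 : IsAlgebraic ℚ y := Algebra.IsAlgebraic.isAlgebraic y
    exact (IsFractionRing.isAlgebraic_iff ℤ ℚ N).mpr h1
  obtain ⟨n, hn, hint⟩ := halg.exists_integral_multiple
  refine ⟨⟨n • y, hint⟩, fun h => ?_, ?_⟩
  · have h2 : n • y = 0 := congrArg (fun x : 𝓞 N => (x : N)) h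
    rcases smul_eq_zero.mp h2 with h3 | h3
    · exact hn h3
    · exact hy0 h3
  · apply RingOfIntegers.ext
    change (η : N) * g (n • y) = n • y
    rw [map_zsmul, mul_smul_comm, hy]

/-- the action of `g` on the units, additively -/
noncomputable def sg (g : Gal(N/F)) : AddMonoid.End (Additive (𝓞 N)ˣ) :=
  MonoidHom.toAdditive (Units.map (MulSemiringAction.toRingHom Gal(N/F) (𝓞 N) g : 𝓞 N →* 𝓞 N))

theorem sg_val (g : Gal(N/F)) (a : Additive (𝓞 N)ˣ) :
    (((sg g a).toMul : (𝓞 N)ˣ) : 𝓞 N) = g • ((a.toMul : (𝓞 N)ˣ) : 𝓞 N) := rfl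

theorem sg_pow_val (g : Gal(N/F)) (i : ℕ) (a : Additive (𝓞 N)ˣ) :
    ((((sg g ^ i) a).toMul : (𝓞 N)ˣ) : 𝓞 N) = (g ^ i) • ((a.toMul : (𝓞 N)ˣ) : 𝓞 N) := by
  induction i generalizing a with
  | zero => rw [pow_zero, pow_zero, one_smul]; rfl
  | succ i ih =>
    rw [pow_succ, pow_succ, mul_smul]
    exact ih (sg g a)

theorem sg_pow_eq_one (g : Gal(N/F)) {p : ℕ} (hg : orderOf g = p) : sg g ^ p = 1 := by
  refine AddMonoidHom.ext (fun a => ?_)
  apply Additive.toMul.injective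
  apply Units.ext
  have h1 := sg_pow_val g p a
  rw [← hg, pow_orderOf_eq_one, one_smul] at h1
  rw [← hg]
  exact h1

/-- the kernel of `sg g - 1` is the group of units of the base field -/
noncomputable def kerEquiv [IsGalois F N] (g : Gal(N/F)) (hgen : ∀ x : Gal(N/F), x ∈ Subgroup.zpowers g) :
    Additive (𝓞 F)ˣ ≃+ AddMonoidHom.ker (sg g - 1 : AddMonoid.End (Additive (𝓞 N)ˣ)) := by
  refine AddEquiv.ofBijective (AddMonoidHom.codRestrict
    (MonoidHom.toAdditive (Units.map (algebraMap (𝓞 F) (𝓞 N) : 𝓞 F →* 𝓞 N))) _ ?_) ⟨?_, ?_⟩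
  · intro a
    rw [AddMonoidHom.mem_ker]
    change sg g _ - _ = 0
    rw [sub_eq_zero]
    apply Additive.toMul.injective
    apply Units.ext
    apply RingOfIntegers.ext
    change g (algebraMap F N (((a.toMul : (𝓞 F)ˣ) : 𝓞 F) : F)) =
      algebraMap F N (((a.toMul : (𝓞 F)ˣ) : 𝓞 F) : F)
    exact g.commutes _
  · intro a b hab
    apply Additive.toMul.injective
    apply Units.ext
    apply FaithfulSMul.algebraMap_injective (𝓞 F) (𝓞 N)
    have h1 := congrArg (fun z : AddMonoidHom.ker (sg g - 1 : AddMonoid.End (Additive (𝓞 N)ˣ)) =>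
      ((z.1.toMul : (𝓞 N)ˣ) : 𝓞 N)) hab
    exact h1
  · rintro ⟨a, ha⟩
    have ha1 : sg g a = a := by
      have : sg g a - a = 0 := ha
      exact sub_eq_zero.mp this
    -- fixed elements are in the base field
    have hfix : ∀ x : 𝓞 N, g • x = x → ∃ y : 𝓞 F, algebraMap (𝓞 F) (𝓞 N) y = x := by
      intro x hx
      have h1 : ∀ k : Gal(N/F), k • (x : N) = x := by
        intro k
        have h2 : Subgroup.zpowers g ≤ MulAction.stabilizer Gal(N/F) (x : N) := by
          rw [Subgroup.zpowers_le, MulAction.mem_stabilizer_iff]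
          exact congrArg (fun z : 𝓞 N => (z : N)) hx
        exact h2 (hgen k)
      have h3 := (IsGalois.mem_range_algebraMap_iff_fixed (x : N)).mpr h1
      obtain ⟨y, hy⟩ := h3
      have hyi : IsIntegral ℤ y := by
        have h4 : IsIntegral ℤ (algebraMap F N y) := by rw [hy]; exact x.2
        exact (isIntegral_algebraMap_iff (FaithfulSMul.algebraMap_injective F N)).mp h4
      exact ⟨⟨y, hyi⟩, RingOfIntegers.ext hy⟩
    have hu : g • ((a.toMul : (𝓞 N)ˣ) : 𝓞 N) = ((a.toMul : (𝓞 N)ˣ) : 𝓞 N) := by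
      rw [← sg_val, ha1]
    have hu' : g • (((-a).toMul : (𝓞 N)ˣ) : 𝓞 N) = (((-a).toMul : (𝓞 N)ˣ) : 𝓞 N) := by
      rw [← sg_val, map_neg, ha1]
    obtain ⟨y, hy⟩ := hfix _ hu
    obtain ⟨y', hy'⟩ := hfix _ hu'
    have hinj := FaithfulSMul.algebraMap_injective (𝓞 F) (𝓞 N)
    have h1 : ((a.toMul : (𝓞 N)ˣ) : 𝓞 N) * (((-a).toMul : (𝓞 N)ˣ) : 𝓞 N) = 1 := by
      rw [toMul_neg, Units.mul_inv]
    have hyy : y * y' = 1 := hinj (by rw [map_mul, hy, hy', h1, map_one])
    have hyy' : y' * y = 1 := by rw [mul_comm]; exact hyy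
    refine ⟨Additive.ofMul ⟨y, y', hyy, hyy'⟩, ?_⟩
    apply Subtype.ext
    apply Additive.toMul.injective
    apply Units.ext
    exact hy

end FermGK
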