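import Mathlib

/-! Indices of endomorphisms of finitely generated abelian groups. -/

namespace FermGK

open Module

/-- the induced endomorphism modulo torsion -/
noncomputable def qm {B : Type*} [AddCommGroup B] (g : B →+ B) :
    (B ⧸ AddCommGroup.torsion B) →+ (B ⧸ AddCommGroup.torsion B) :=
  QuotientAddGroup.map _ _ g (fun x hx => by
    rw [AddSubgroup.mem_comap]
    exact AddMonoidHom.isOfFinAddOrder g hx)

/-- the same as an element of the endomorphism ring -/
noncomputable def qe {B : Type*} [AddCommGroup B] (g : AddMonoid.End B) :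
    AddMonoid.End (B ⧸ AddCommGroup.torsion B) := qm g

theorem qe_mk {B : Type*} [AddCommGroup B] (g : AddMonoid.End B) (x : B) :
    qe g (QuotientAddGroup.mk x) = QuotientAddGroup.mk (g x) := rfl

theorem qm_mk {B : Type*} [AddCommGroup B] (g : B →+ B) (x : B) :
    qm g (QuotientAddGroup.mk x) = QuotientAddGroup.mk (g x) := rfl

theorem finite_torsion (B : Type*) [AddCommGroup B] [Module.Finite ℤ B] :
    Finite (AddCommGroup.torsion B) := by
  have : AddGroup.FG (AddCommGroup.torsion B) := by
    have h1 : Module.Finite ℤ (AddSubgroup.toIntSubmodule (AddCommGroup.torsion B)) := inferInstance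
    have h2 : Module.Finite ℤ (AddCommGroup.torsion B) := h1
    exact Module.Finite.iff_addGroup_fg.mp h2
  exact AddCommGroup.finite_of_fg_torsion _ (fun x => by
    have hx : IsOfFinAddOrder (x : B) := x.2
    exact (AddSubmonoid.isOfFinAddOrder_coe).mp hx)

theorem ix_tor {B : Type*} [AddCommGroup B] [Module.Finite ℤ B] (g : B →+ B)
    (hg : ∀ x, IsOfFinAddOrder (g x) → IsOfFinAddOrder x) :
    g.range.index = (qm g).range.index * Nat.card g.ker := by
  classical
  set T := AddCommGroup.torsion B with hT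
  haveI := finite_torsion B
  have e1 : g.range ⊔ T = AddSubgroup.comap (QuotientAddGroup.mk' T) (qm g).range := by
    ext x
    rw [AddSubgroup.mem_comap, AddSubgroup.mem_sup]
    constructor
    · rintro ⟨y, ⟨z, rfl⟩, t, ht, rfl⟩
      refine ⟨QuotientAddGroup.mk z, ?_⟩
      rw [qm_mk]
      change _ = QuotientAddGroup.mk (g z + t)
      rw [QuotientAddGroup.eq]
      simpa using ht
    · rintro ⟨y, hy⟩
      obtain ⟨z, rfl⟩ := QuotientAddGroup.mk_surjective y
      rw [qm_mk] at hy
      have hy' : (QuotientAddGroup.mk (g z) : B ⧸ T) = QuotientAddGroup.mk x := hy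
      rw [QuotientAddGroup.eq] at hy'
      exact ⟨g z, ⟨z, rfl⟩, -g z + x, hy', by abel⟩
  have e2 : (g.range ⊔ T).index = (qm g).range.index := by
    rw [e1]
    exact AddSubgroup.index_comap_of_surjective _ (QuotientAddGroup.mk'_surjective T)
  have e3 : g.range.relIndex (g.range ⊔ T) = g.range.relIndex T :=
    AddSubgroup.relIndex_sup_left _ _
  -- the restriction to the torsion
  let f : T →+ T := AddMonoidHom.mk' (fun x => (⟨g x, AddMonoidHom.isOfFinAddOrder g x.2⟩ : T))
    (fun x y => Subtype.ext (map_add g _ _))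
  have hf : ∀ x : T, ((f x : T) : B) = g x := fun x => rfl
  have e4 : g.range.addSubgroupOf T = f.range := by
    ext x
    rw [AddSubgroup.mem_addSubgroupOf]
    constructor
    · rintro ⟨y, hy⟩
      have hyT : y ∈ T := hg y (by rw [hy]; exact x.2)
      exact ⟨⟨y, hyT⟩, Subtype.ext hy⟩
    · rintro ⟨y, hy⟩
      exact ⟨y, by rw [← hy, hf]⟩
  have e5 : g.range.relIndex T = Nat.card f.ker := by
    change (g.range.addSubgroupOf T).index = _
    rw [e4]
    exact AddSubgroup.index_range
  have e6 : Nat.card f.ker = Nat.card g.ker := by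
    refine Nat.card_congr ⟨fun x => ⟨x.1.1, ?_⟩, fun x => ⟨⟨x.1, ?_⟩, ?_⟩, ?_, ?_⟩
    · have := x.2
      rw [AddMonoidHom.mem_ker] at this ⊢
      rw [← hf, this]; rfl
    · exact hg x.1 (by
        have := x.2
        rw [AddMonoidHom.mem_ker] at this
        rw [this]; exact IsOfFinAddOrder.zero)
    · have := x.2
      rw [AddMonoidHom.mem_ker] at this ⊢
      exact Subtype.ext this
    · intro x; rfl
    · intro x; rfl
  rw [← AddSubgroup.relIndex_mul_index (le_sup_left : g.range ≤ g.range ⊔ T), e3, e5, e6, e2,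
    mul_comm]

theorem index_range_comp {B : Type*} [AddCommGroup B] (f g : B →+ B)
    (hf : Function.Injective f) :
    (f.comp g).range.index = f.range.index * g.range.index := by
  have h1 : (f.comp g).range = g.range.map f := AddMonoidHom.range_comp f g
  have h2 : f.range = (⊤ : AddSubgroup B).map f := AddMonoidHom.range_eq_map f
  have h3 : (f.comp g).range ≤ f.range := by
    rintro _ ⟨x, rfl⟩; exact ⟨g x, rfl⟩
  rw [← AddSubgroup.relIndex_mul_index h3]
  have h4 : (f.comp g).range.relIndex f.range = g.range.index := by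
    rw [h1, h2, AddSubgroup.relIndex_map_map_of_injective _ _ hf, AddSubgroup.relIndex_top_right]
  rw [h4, mul_comm]

theorem cyclo_dvd {p : ℕ} (hp : p.Prime) :
    Polynomial.cyclotomic p ℤ ∣
      (∏ k ∈ Finset.range (p - 1), (1 - (Polynomial.X : Polynomial ℤ) ^ (k + 1)))
        - Polynomial.C (p : ℤ) := by
  have h0 : 0 < p := hp.pos
  have hprim := Complex.isPrimitiveRoot_exp p h0.ne'
  set z := Complex.exp (2 * Real.pi * Complex.I / p) with hz
  rw [Polynomial.cyclotomic_eq_minpoly hprim h0]
  refine minpoly.isIntegrallyClosed_dvd (hprim.isIntegral h0) ?_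
  have hprim' : IsPrimitiveRoot z ((p - 1) + 1) := by
    rw [Nat.sub_add_cancel h0]; exact hprim
  have := hprim'.prod_one_sub_pow_eq_order
  rw [map_sub, map_prod]
  simp only [map_sub, map_one, map_pow, Polynomial.aeval_X, Polynomial.aeval_C]
  rw [this]
  have h1 : ((p - 1 : ℕ) : ℂ) + 1 = (p : ℂ) := by
    exact_mod_cast congrArg (Nat.cast (R := ℂ)) (Nat.sub_add_cancel h0)
  rw [h1]
  simp

section free

variable {B : Type*} [AddCommGroup B]

theorem end_sum_apply {ι : Type*} (s : Finset ι) (f : ι → AddMonoid.End B) (x : B) :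
    (∑ i ∈ s, f i) x = ∑ i ∈ s, f i x := by
  classical
  induction s using Finset.induction_on with
  | empty => rfl
  | insert a s ha ih =>
    rw [Finset.sum_insert ha, Finset.sum_insert ha, ← ih]; rfl

theorem pow_eq_one_of_geom {σ : AddMonoid.End B} {p : ℕ}
    (h : ∑ i ∈ Finset.range p, σ ^ i = 0) : σ ^ p = 1 := by
  have := geom_sum_mul σ p
  rw [h, zero_mul] at this
  exact (sub_eq_zero.mp this.symm)

theorem ix_free [Module.Free ℤ B] [Module.Finite ℤ B] {p s : ℕ} (hp : p.Prime)
    (hr : Module.finrank ℤ B = (p - 1) * s) (σ : AddMonoid.End B)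
    (h : ∑ i ∈ Finset.range p, σ ^ i = 0) :
    (AddMonoidHom.range (σ - 1 : AddMonoid.End B)).index = p ^ s := by
  classical
  have hσp := pow_eq_one_of_geom h
  have hp2 : 2 ≤ p := hp.two_le
  -- injectivity
  have hinj : Function.Injective (σ - 1 : AddMonoid.End B) := by
    rw [injective_iff_map_eq_zero]
    intro x hx
    have hx1 : σ x = x := by
      have : σ x - x = 0 := hx
      exact sub_eq_zero.mp this
    have hxi : ∀ i : ℕ, (σ ^ i) x = x := by
      intro i
      induction i with
      | zero => rfl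
      | succ i ih => rw [pow_succ]; change (σ ^ i) (σ x) = x; rw [hx1, ih]
    have h2 : (∑ i ∈ Finset.range p, σ ^ i) x = p • x := by
      rw [end_sum_apply]
      rw [Finset.sum_congr rfl (fun i _ => hxi i)]
      simp
    rw [h] at h2
    have h3 : p • x = 0 := h2.symm
    have h4 : (p : ℤ) • x = 0 := by rw [natCast_zsmul]; exact h3
    rcases smul_eq_zero.mp h4 with h5 | h5
    · exact absurd (by exact_mod_cast h5) hp.ne_zero
    · exact h5
  set I := (AddMonoidHom.range (σ - 1 : AddMonoid.End B)).index with hI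
  -- each factor
  have hle : ∀ (τ : AddMonoid.End B) (j : ℕ),
      AddMonoidHom.range (1 - τ ^ j : AddMonoid.End B) ≤
        AddMonoidHom.range (1 - τ : AddMonoid.End B) := by
    intro τ j
    rintro _ ⟨x, rfl⟩
    refine ⟨(∑ i ∈ Finset.range j, τ ^ i) x, ?_⟩
    have := mul_neg_geom_sum τ j
    rw [← this]; rfl
  have hneg : AddMonoidHom.range (1 - σ : AddMonoid.End B) =
      AddMonoidHom.range (σ - 1 : AddMonoid.End B) := by
    ext y
    constructor
    · rintro ⟨x, rfl⟩
      refine ⟨-x, ?_⟩
      rw [map_neg]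
      change -(σ x - x) = x - σ x
      abel
    · rintro ⟨x, rfl⟩
      refine ⟨-x, ?_⟩
      rw [map_neg]
      change -(x - σ x) = σ x - x
      abel
  have hrange : ∀ j : ℕ, ¬ p ∣ j → AddMonoidHom.range (1 - σ ^ j : AddMonoid.End B) =
      AddMonoidHom.range (σ - 1 : AddMonoid.End B) := by
    intro j hj
    rw [← hneg]
    apply le_antisymm (hle σ j)
    have hc : Nat.Coprime j p := ((Nat.Prime.coprime_iff_not_dvd hp).mpr hj).symm
    obtain ⟨m, -, hm⟩ := Nat.exists_mul_mod_eq_one_of_coprime hc hp2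
    have : σ = (σ ^ j) ^ m := by
      rw [← pow_mul]
      conv_rhs => rw [← Nat.mod_add_div (j * m) p, hm, pow_add, pow_mul, hσp, one_pow, mul_one,
        pow_one]
    conv_lhs => rw [this]
    exact hle (σ ^ j) m
  have hinj' : ∀ j : ℕ, ¬ p ∣ j → Function.Injective (1 - σ ^ j : AddMonoid.End B) := by
    intro j hj
    have hc : Nat.Coprime j p := ((Nat.Prime.coprime_iff_not_dvd hp).mpr hj).symm
    obtain ⟨m, -, hm⟩ := Nat.exists_mul_mod_eq_one_of_coprime hc hp2
    have h1 : σ = (σ ^ j) ^ m := by
      rw [← pow_mul]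
      conv_rhs => rw [← Nat.mod_add_div (j * m) p, hm, pow_add, pow_mul, hσp, one_pow, mul_one,
        pow_one]
    rw [injective_iff_map_eq_zero]
    intro x hx
    have hx1 : (σ ^ j) x = x := by
      have : x - (σ ^ j) x = 0 := hx
      exact (sub_eq_zero.mp this).symm
    have hxi : ∀ i : ℕ, ((σ ^ j) ^ i) x = x := by
      intro i
      induction i with
      | zero => rfl
      | succ i ih => rw [pow_succ]; change ((σ ^ j) ^ i) ((σ ^ j) x) = x; rw [hx1, ih]
    have h2 : σ x = x := by
      conv_lhs => rw [h1]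
      exact hxi m
    apply hinj
    rw [map_zero]
    change σ x - x = 0
    rw [h2, sub_self]
  have hind : ∀ n : ℕ, n < p →
      Function.Injective (Polynomial.aeval σ
        (∏ k ∈ Finset.range n, (1 - (Polynomial.X : Polynomial ℤ) ^ (k + 1))) : AddMonoid.End B) ∧
      (AddMonoidHom.range (Polynomial.aeval σ
        (∏ k ∈ Finset.range n, (1 - (Polynomial.X : Polynomial ℤ) ^ (k + 1))) :
          AddMonoid.End B)).index = I ^ n := by
    intro n
    induction n with
    | zero =>
      intro _
      rw [Finset.range_zero, Finset.prod_empty, map_one, pow_zero]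
      refine ⟨fun x y h => h, ?_⟩
      rw [AddSubgroup.index_eq_one]
      rw [AddMonoidHom.range_eq_top]
      exact fun x => ⟨x, rfl⟩
    | succ n ih =>
      intro hn
      obtain ⟨ih1, ih2⟩ := ih (by omega)
      have hd : ¬ p ∣ (n + 1) := fun hd => by
        have := Nat.le_of_dvd (Nat.succ_pos n) hd
        omega
      have hj := hinj' (n + 1) hd
      rw [Finset.prod_range_succ, map_mul]
      have e : (Polynomial.aeval σ (1 - (Polynomial.X : Polynomial ℤ) ^ (n + 1)) :
          AddMonoid.End B) = 1 - σ ^ (n + 1) := by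
        rw [map_sub, map_one, map_pow, Polynomial.aeval_X]
      rw [e]
      refine ⟨ih1.comp hj, ?_⟩
      have := index_range_comp (Polynomial.aeval σ
        (∏ k ∈ Finset.range n, (1 - (Polynomial.X : Polynomial ℤ) ^ (k + 1))) : AddMonoid.End B)
        (1 - σ ^ (n + 1) : AddMonoid.End B) ih1
      rw [ih2, hrange (n + 1) hd, ← hI] at this
      rw [pow_succ]
      exact this
  have hlast := (hind (p - 1) (by omega)).2
  obtain ⟨R, hR⟩ := cyclo_dvd hp
  have e1 : (Polynomial.aeval σ
        (∏ k ∈ Finset.range (p - 1), (1 - (Polynomial.X : Polynomial ℤ) ^ (k + 1))) :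
          AddMonoid.End B) = (p : AddMonoid.End B) := by
    have : Fact p.Prime := ⟨hp⟩
    have h1 : (∏ k ∈ Finset.range (p - 1), (1 - (Polynomial.X : Polynomial ℤ) ^ (k + 1))) =
        Polynomial.cyclotomic p ℤ * R + Polynomial.C (p : ℤ) := by rw [← hR]; ring
    rw [h1, map_add, map_mul, Polynomial.cyclotomic_prime, map_sum]
    simp only [map_pow, Polynomial.aeval_X, Polynomial.aeval_C]
    rw [h, zero_mul, zero_add]
    simp
  rw [e1] at hlast
  have e2 : (AddMonoidHom.range ((p : AddMonoid.End B))).index = p ^ ((p - 1) * s) := by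
    rw [← hr, ← AddSubgroup.index_range_nsmul B p]
    exact congrArg AddSubgroup.index (AddSubgroup.ext (fun y => Iff.rfl))
  rw [e2] at hlast
  rw [mul_comm, pow_mul] at hlast
  exact (Nat.pow_left_injective (by omega : p - 1 ≠ 0) hlast).symm

end free

section tors

variable {B : Type*} [AddCommGroup B] [Module.Finite ℤ B]

theorem q_finite : Module.Finite ℤ (B ⧸ AddCommGroup.torsion B) :=
  Module.Finite.of_surjective (QuotientAddGroup.mk' (AddCommGroup.torsion B)).toIntLinearMap
    (QuotientAddGroup.mk'_surjective _)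

theorem q_free : Module.Free ℤ (B ⧸ AddCommGroup.torsion B) := by
  have := q_finite (B := B)
  exact Module.free_of_finite_type_torsion_free'

theorem q_rank : Module.finrank ℤ (B ⧸ AddCommGroup.torsion B) = Module.finrank ℤ B :=
  finrank_quotient_torsion_eq (M := B)

theorem ofo_of_nsmul {n : ℕ} (hn : n ≠ 0) {x : B} (h : IsOfFinAddOrder (n • x)) :
    IsOfFinAddOrder x := by
  rw [isOfFinAddOrder_iff_nsmul_eq_zero] at h ⊢
  obtain ⟨m, hm, hx⟩ := h
  exact ⟨m * n, Nat.mul_pos hm (Nat.pos_of_ne_zero hn), by rw [mul_smul]; exact hx⟩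

/-- `[M : (σ-1)M] = p^s · |ker(σ-1)|` when the norm vanishes on `M`, of rank `(p-1)s`. -/
theorem ix_norm_zero {p s : ℕ} (hp : p.Prime)
    (hr : Module.finrank ℤ B = (p - 1) * s) (σ : AddMonoid.End B)
    (h : ∑ i ∈ Finset.range p, σ ^ i = 0) :
    (AddMonoidHom.range (σ - 1 : AddMonoid.End B)).index =
      p ^ s * Nat.card (AddMonoidHom.ker (σ - 1 : AddMonoid.End B)) := by
  have h1 := q_finite (B := B)
  have h2 := q_free (B := B)
  have hpow : ∀ i : ℕ, ∀ x : B, ((qe σ) ^ i)
      (QuotientAddGroup.mk x) = QuotientAddGroup.mk ((σ ^ i) x) := by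
    intro i
    induction i with
    | zero => intro x; rfl
    | succ i ih => intro x; rw [pow_succ, pow_succ]; exact ih (σ x)
  have hsum : ∑ i ∈ Finset.range p,
      (qe σ) ^ i = 0 := by
    ext y
    obtain ⟨x, rfl⟩ := QuotientAddGroup.mk_surjective y
    rw [end_sum_apply, Finset.sum_congr rfl (fun i _ => hpow i x)]
    have h3 : (QuotientAddGroup.mk' (AddCommGroup.torsion B)) (∑ i ∈ Finset.range p, (σ ^ i) x)
        = ∑ i ∈ Finset.range p, (QuotientAddGroup.mk' (AddCommGroup.torsion B)) ((σ ^ i) x) :=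
      map_sum _ _ _
    rw [← end_sum_apply, h] at h3
    exact h3.symm
  have hfree := ix_free hp (q_rank.trans hr) (qe σ) hsum
  have htor := ix_tor (σ - 1 : AddMonoid.End B) (by
    intro x hx
    -- modulo torsion `σ x = x`
    have e1 : (qe σ) (QuotientAddGroup.mk x) = QuotientAddGroup.mk x := by
      rw [qe_mk, QuotientAddGroup.eq]
      change IsOfFinAddOrder _
      have e2 : -(σ x) + x = -((σ - 1 : AddMonoid.End B) x) := by
        change -(σ x) + x = -(σ x - x); abel
      rw [e2]
      exact hx.neg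
    have e3 : ∀ i : ℕ, ((qe σ) ^ i)
        (QuotientAddGroup.mk x) = QuotientAddGroup.mk x := by
      intro i
      induction i with
      | zero => rfl
      | succ i ih =>
        rw [pow_succ]
        change ((qe σ) ^ i)
          ((qe σ) (QuotientAddGroup.mk x)) = _
        rw [e1, ih]
    have e4 : (p : ℕ) • (QuotientAddGroup.mk x : B ⧸ AddCommGroup.torsion B) = 0 := by
      have := end_sum_apply (Finset.range p)
        (fun i => (qe σ) ^ i) (QuotientAddGroup.mk x)
      rw [hsum, Finset.sum_congr rfl (fun i _ => e3 i), Finset.sum_const, Finset.card_range] at this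
      exact this.symm
    have e5 : (QuotientAddGroup.mk (p • x) : B ⧸ AddCommGroup.torsion B) = 0 := e4
    rw [QuotientAddGroup.eq_zero_iff] at e5
    exact ofo_of_nsmul hp.ne_zero e5)
  have e : qe (σ - 1 : AddMonoid.End B) = qe σ - 1 := by
    refine AddMonoidHom.ext (fun y => ?_)
    obtain ⟨x, rfl⟩ := QuotientAddGroup.mk_surjective y
    rfl
  have e' : (qm (σ - 1 : AddMonoid.End B)).range.index =
      (AddMonoidHom.range (qe σ - 1 : AddMonoid.End _)).index := by
    rw [← e]; rfl
  rw [htor, e', hfree]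

/-- `[C : nC] = n^rank · |C[n]|`. -/
theorem ix_nsmul {n : ℕ} (hn : n ≠ 0) :
    (nsmulAddMonoidHom (α := B) n).range.index =
      n ^ Module.finrank ℤ B * Nat.card (nsmulAddMonoidHom (α := B) n).ker := by
  have h1 := q_finite (B := B)
  have h2 := q_free (B := B)
  have htor := ix_tor (nsmulAddMonoidHom (α := B) n) (fun x hx => ofo_of_nsmul hn hx)
  have e : qm (nsmulAddMonoidHom (α := B) n) =
      nsmulAddMonoidHom (α := B ⧸ AddCommGroup.torsion B) n := by
    refine AddMonoidHom.ext (fun y => ?_)
    obtain ⟨x, rfl⟩ := QuotientAddGroup.mk_surjective y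
    rfl
  rw [e] at htor
  rw [htor, AddSubgroup.index_range_nsmul (B ⧸ AddCommGroup.torsion B) n, q_rank]

end tors

/-- the abstract Herbrand lemma -/
theorem herbrand {A : Type*} [AddCommGroup A] [Module.Finite ℤ A] {p s : ℕ} (hp : p.Prime)
    (hs : 1 ≤ s) (hr : Module.finrank ℤ A + 1 = p * s) (σ : AddMonoid.End A) (hσ : σ ^ p = 1)
    (hk : Module.finrank ℤ (AddMonoidHom.ker (σ - 1 : AddMonoid.End A)) + 1 = s) :
    ∃ a : A, (∑ i ∈ Finset.range p, (σ ^ i) a = 0) ∧ ¬ ∃ b : A, σ b - b = a := by
  classical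
  by_contra hcon
  push_neg at hcon
  set D : AddMonoid.End A := σ - 1 with hD
  set N : AddMonoid.End A := ∑ i ∈ Finset.range p, σ ^ i with hN
  have hDa : ∀ x, D x = σ x - x := fun x => rfl
  have hNa : ∀ x, N x = ∑ i ∈ Finset.range p, (σ ^ i) x := fun x => end_sum_apply _ _ _
  have hND : N * D = 0 := by rw [hN, hD, geom_sum_mul, hσ, sub_self]
  have hDN : D * N = 0 := by rw [hN, hD, mul_geom_sum, hσ, sub_self]
  have hND' : ∀ x, N (D x) = 0 := fun x => by
    have := DFunLike.congr_fun hND x
    exact this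
  have hDN' : ∀ x, D (N x) = 0 := fun x => by
    have := DFunLike.congr_fun hDN x
    exact this
  set M : AddSubgroup A := AddMonoidHom.range D with hM
  set C : AddSubgroup A := AddMonoidHom.ker D with hC
  have hMk : M = AddMonoidHom.ker N := by
    apply le_antisymm
    · rintro _ ⟨x, rfl⟩
      exact hND' x
    · intro x hx
      obtain ⟨b, hb⟩ := hcon x (by rw [← hNa]; exact hx)
      exact ⟨b, hb⟩
  -- finiteness
  have hfin : ∀ S : AddSubgroup A, Module.Finite ℤ S := fun S => by
    have h1 : Module.Finite ℤ (AddSubgroup.toIntSubmodule S) := inferInstance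
    exact h1
  have hfM := hfin M
  have hfC := hfin C
  -- the rank of M
  have hrM : Module.finrank ℤ M = (p - 1) * s := by
    have h1 := Submodule.finrank_quotient_add_finrank (LinearMap.ker D.toIntLinearMap)
    rw [(LinearMap.quotKerEquivRange D.toIntLinearMap).finrank_eq] at h1
    have h2 : Module.finrank ℤ (LinearMap.range D.toIntLinearMap) = Module.finrank ℤ M := by
      have : LinearMap.range D.toIntLinearMap = AddSubgroup.toIntSubmodule M := by
        ext x; rfl
      rw [this]; rfl
    have h3 : Module.finrank ℤ (LinearMap.ker D.toIntLinearMap) = Module.finrank ℤ C := by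
      have : LinearMap.ker D.toIntLinearMap = AddSubgroup.toIntSubmodule C := by
        ext x; rfl
      rw [this]; rfl
    rw [h2, h3] at h1
    have h4 : (p - 1) * s + s = p * s := by
      rw [← Nat.succ_mul, Nat.succ_eq_add_one, Nat.sub_add_cancel hp.pos]
    omega
  -- sigma restricted to M
  have hσD : ∀ x, σ (D x) = D (σ x) := fun x => by rw [hDa, hDa, map_sub]
  have hσM : ∀ x ∈ M, σ x ∈ M := by
    rintro _ ⟨x, rfl⟩
    exact ⟨σ x, (hσD x).symm⟩
  let σM : AddMonoid.End M := AddMonoidHom.mk' (fun x => (⟨σ x, hσM x x.2⟩ : M))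
    (fun x y => Subtype.ext (map_add σ _ _))
  have hσM1 : ∀ x : M, ((σM x : M) : A) = σ x := fun x => rfl
  have hσMp : ∀ (i : ℕ) (x : M), (((σM ^ i) x : M) : A) = (σ ^ i) x := by
    intro i
    induction i with
    | zero => intro x; rfl
    | succ i ih =>
      intro x
      rw [pow_succ, pow_succ]
      change (((σM ^ i) (σM x) : M) : A) = (σ ^ i) (σ x)
      rw [ih, hσM1]
  have hsumM : ∑ i ∈ Finset.range p, σM ^ i = 0 := by
    refine AddMonoidHom.ext (fun x => Subtype.ext ?_)
    change (((∑ i ∈ Finset.range p, σM ^ i : AddMonoid.End M) x : M) : A) = 0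
    rw [end_sum_apply, AddSubgroup.val_finset_sum, Finset.sum_congr rfl (fun i _ => hσMp i x), ← hNa]
    have hx : (x : A) ∈ AddMonoidHom.ker N := hMk ▸ x.2
    exact hx
  have key1 := ix_norm_zero hp hrM σM hsumM
  -- the index of D M in M is the index of C + M in A
  have hDM : ∀ x, D x ∈ M := fun x => ⟨x, rfl⟩
  let D' : A →+ M := AddMonoidHom.mk' (fun x => (⟨D x, hDM x⟩ : M))
    (fun x y => Subtype.ext (map_add D _ _))
  have hD' : ∀ x, ((D' x : M) : A) = D x := fun x => rfl
  have hD's : Function.Surjective D' := by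
    rintro ⟨y, x, rfl⟩
    exact ⟨x, rfl⟩
  have e1 : C ⊔ M = AddSubgroup.comap D' (AddMonoidHom.range (σM - 1 : AddMonoid.End M)) := by
    ext x
    rw [AddSubgroup.mem_comap, AddSubgroup.mem_sup]
    constructor
    · rintro ⟨y, hy, z, hz, rfl⟩
      refine ⟨⟨z, hz⟩, Subtype.ext ?_⟩
      change σ z - z = D (y + z)
      rw [map_add, show D y = 0 from hy, zero_add, hDa]
    · rintro ⟨z, hz⟩
      have h1 : σ z - z = D x := congrArg Subtype.val hz
      refine ⟨x - z, ?_, z, z.2, by abel⟩
      change D (x - z) = 0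
      rw [map_sub, ← h1, hDa, sub_self]
  have e2 : (C ⊔ M).index = (AddMonoidHom.range (σM - 1 : AddMonoid.End M)).index := by
    rw [e1]
    exact AddSubgroup.index_comap_of_surjective _ hD's
  have hNC : ∀ x, N x ∈ C := fun x => hDN' x
  let N' : A →+ C := AddMonoidHom.mk' (fun x => (⟨N x, hNC x⟩ : C))
    (fun x y => Subtype.ext (map_add N _ _))
  have hNc : ∀ x ∈ C, N x = p • x := by
    intro x hx
    have hx1 : σ x = x := by
      have : σ x - x = 0 := hx
      exact sub_eq_zero.mp this
    have hxi : ∀ i : ℕ, (σ ^ i) x = x := by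
      intro i
      induction i with
      | zero => rfl
      | succ i ih => rw [pow_succ]; change (σ ^ i) (σ x) = x; rw [hx1, ih]
    rw [hNa, Finset.sum_congr rfl (fun i _ => hxi i), Finset.sum_const, Finset.card_range]
  have e3 : C ⊔ M = AddSubgroup.comap N' (nsmulAddMonoidHom (α := C) p).range := by
    ext x
    rw [AddSubgroup.mem_comap, AddSubgroup.mem_sup]
    constructor
    · rintro ⟨y, hy, z, hz, rfl⟩
      refine ⟨⟨y, hy⟩, Subtype.ext ?_⟩
      change p • y = N (y + z)
      rw [map_add, show N z = 0 from (hMk ▸ hz : z ∈ AddMonoidHom.ker N), add_zero, hNc y hy]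
    · rintro ⟨y, hy⟩
      have h1 : p • (y : A) = N x := congrArg Subtype.val hy
      refine ⟨y, y.2, x - y, ?_, by abel⟩
      rw [hMk]
      change N (x - y) = 0
      rw [map_sub, ← h1, hNc y y.2, sub_self]
  have e4 : (C ⊔ M).index ∣ (nsmulAddMonoidHom (α := C) p).range.index := by
    rw [e3, AddSubgroup.index_comap]
    exact AddSubgroup.relIndex_dvd_index_of_normal _ _
  have e5 : Nat.card (AddMonoidHom.ker (σM - 1 : AddMonoid.End M)) =
      Nat.card (nsmulAddMonoidHom (α := C) p).ker := by
    refine Nat.card_congr ⟨fun x => ⟨⟨x.1.1, ?_⟩, ?_⟩, fun x => ⟨⟨x.1.1, ?_⟩, ?_⟩, ?_, ?_⟩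
    · have h1 : (σM - 1 : AddMonoid.End M) x.1 = 0 := x.2
      exact congrArg Subtype.val h1
    · have h1 : (σM - 1 : AddMonoid.End M) x.1 = 0 := x.2
      have h2 : (x.1 : A) ∈ C := congrArg Subtype.val h1
      refine Subtype.ext ?_
      change p • (x.1 : A) = 0
      rw [← hNc _ h2]
      exact (hMk ▸ x.1.2 : (x.1 : A) ∈ AddMonoidHom.ker N)
    · have h1 : p • x.1 = 0 := x.2
      have h2 : p • (x.1 : A) = 0 := congrArg Subtype.val h1
      rw [hMk]
      change N x.1 = 0
      rw [hNc _ x.1.2, h2]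
    · refine Subtype.ext ?_
      exact x.1.2
    · intro x; rfl
    · intro x; rfl
  have key2 := ix_nsmul (B := C) hp.ne_zero
  have hpos : 0 < Nat.card (nsmulAddMonoidHom (α := C) p).ker := by
    have h1 := finite_torsion C
    have h2 : Finite (nsmulAddMonoidHom (α := C) p).ker := by
      refine Finite.of_injective (β := AddCommGroup.torsion C) (fun x => ⟨x.1, ?_⟩) ?_
      · have hx : p • x.1 = 0 := x.2
        change IsOfFinAddOrder x.1
        rw [isOfFinAddOrder_iff_nsmul_eq_zero]
        exact ⟨p, hp.pos, hx⟩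
      · intro x y hxy
        exact Subtype.ext (congrArg (fun z : AddCommGroup.torsion C => (z : C)) hxy)
    exact Nat.card_pos
  rw [key2, e2, key1, e5] at e4
  have h5 := Nat.dvd_of_mul_dvd_mul_right hpos e4
  have h6 := (Nat.pow_dvd_pow_iff_le_right hp.one_lt).mp h5
  omega

end FermGK
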