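import Pool.Agent.Lib.MP_2f3286_ag.GK.Kum

/-! Invariant ideals of an unramified Galois extension come from the base field. -/

open Polynomial NumberField IsDedekindDomain Module
open scoped Pointwise

namespace FermGK

variable {F N : Type*} [Field F] [NumberField F] [Field N] [NumberField N] [Algebra F N]

theorem exists_below (P' : HeightOneSpectrum (𝓞 N)) :
    ∃ P : HeightOneSpectrum (𝓞 F), P'.asIdeal.LiesOver P.asIdeal := by
  have hp := P'.isPrime
  refine ⟨⟨P'.asIdeal.under (𝓞 F), inferInstance, ?_⟩, inferInstance⟩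
  intro h
  exact P'.ne_bot (Ideal.eq_bot_of_comap_eq_bot h)

theorem smul_map (g : Gal(N/F)) (J : Ideal (𝓞 F)) :
    g • (J.map (algebraMap (𝓞 F) (𝓞 N))) = J.map (algebraMap (𝓞 F) (𝓞 N)) := by
  rw [Ideal.pointwise_smul_def, Ideal.map_map]
  congr 1
  ext r
  change ((g • algebraMap (𝓞 F) (𝓞 N) r : 𝓞 N) : N) = _
  change g (algebraMap F N (algebraMap (𝓞 F) F r)) = algebraMap F N (algebraMap (𝓞 F) F r)
  exact g.commutes _

theorem descend [IsGalois F N]
    (hunr : ∀ (P : HeightOneSpectrum (𝓞 F)) (P' : HeightOneSpectrum (𝓞 N)),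
      ¬ P'.asIdeal ^ 2 ∣ P.asIdeal.map (algebraMap (𝓞 F) (𝓞 N))) (n : ℕ) :
    ∀ I : Ideal (𝓞 N), I ≠ ⊥ → Ideal.absNorm I ≤ n → (∀ g : Gal(N/F), g • I = I) →
      ∃ J : Ideal (𝓞 F), I = J.map (algebraMap (𝓞 F) (𝓞 N)) := by
  classical
  induction n with
  | zero =>
    intro I hI hn _
    exact absurd (Ideal.absNorm_eq_zero_iff.mp (Nat.le_zero.mp hn)) hI
  | succ n ih =>
    intro I hI hn hinv
    by_cases htop : I = ⊤
    · exact ⟨⊤, by rw [htop, Ideal.map_top]⟩
    obtain ⟨M, hM, hIM⟩ := Ideal.exists_le_maximal I htop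
    have hM0 : M ≠ ⊥ := fun h => hI (le_bot_iff.mp (h ▸ hIM))
    let P' : HeightOneSpectrum (𝓞 N) := ⟨M, hM.isPrime, hM0⟩
    obtain ⟨P, hP⟩ := exists_below (F := F) P'
    have hmax : P.asIdeal.IsMaximal := P.isMaximal
    have hmap0 : P.asIdeal.map (algebraMap (𝓞 F) (𝓞 N)) ≠ ⊥ := by
      rw [ne_eq, Ideal.map_eq_bot_iff_of_injective
        (FaithfulSMul.algebraMap_injective (𝓞 F) (𝓞 N))]
      exact P.ne_bot
    have hsq : Squarefree (P.asIdeal.map (algebraMap (𝓞 F) (𝓞 N))) := by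
      rw [squarefree_iff_irreducible_sq_not_dvd_of_ne_zero hmap0]
      intro Q hQ hQQ
      have hQp : Prime Q := hQ.prime
      let Q' : HeightOneSpectrum (𝓞 N) := ⟨Q, Ideal.isPrime_of_prime hQp, hQp.ne_zero⟩
      exact hunr P Q' (by rw [pow_two]; exact hQQ)
    have hdvd : P.asIdeal.map (algebraMap (𝓞 F) (𝓞 N)) ∣ I := by
      rw [UniqueFactorizationMonoid.dvd_iff_normalizedFactors_le_normalizedFactors hmap0 hI,
        Multiset.le_iff_subset
          ((UniqueFactorizationMonoid.squarefree_iff_nodup_normalizedFactors hmap0).mp hsq)]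
      intro Q hQ
      have hQp : Prime Q := UniqueFactorizationMonoid.prime_of_normalized_factor Q hQ
      have hQd := UniqueFactorizationMonoid.dvd_of_mem_normalizedFactors hQ
      let Q' : HeightOneSpectrum (𝓞 N) := ⟨Q, Ideal.isPrime_of_prime hQp, hQp.ne_zero⟩
      have hlo : Q'.asIdeal.LiesOver P.asIdeal := liesOver_of_dvd P Q' hQd
      have hQpr : Q'.asIdeal.IsPrime := Q'.isPrime
      have hPpr : P'.asIdeal.IsPrime := P'.isPrime
      have hPp := P.isPrime
      obtain ⟨g, hg⟩ := Ideal.exists_smul_eq_of_isGaloisGroup P.asIdeal P'.asIdeal Q'.asIdeal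
        Gal(N/F)
      have hle : I ≤ Q := by
        have h1 : g • I ≤ g • M := (Ideal.pointwise_smul_le_pointwise_smul_iff).mpr hIM
        rw [hinv g] at h1
        have h2 : g • M = Q := hg
        rwa [h2] at h1
      obtain ⟨Q₁, hQ₁, hass⟩ := UniqueFactorizationMonoid.exists_mem_normalizedFactors_of_dvd hI
        hQp.irreducible (Ideal.dvd_iff_le.mpr hle)
      rw [associated_iff_eq] at hass
      rwa [hass]
    obtain ⟨I', hI'⟩ := hdvd
    have hI'0 : I' ≠ ⊥ := by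
      rintro rfl
      exact hI (by rw [hI', Ideal.mul_bot])
    have hinv' : ∀ g : Gal(N/F), g • I' = I' := by
      intro g
      have h1 := hinv g
      rw [hI', smul_mul', smul_map] at h1
      exact mul_left_cancel₀ hmap0 h1
    have hnorm : Ideal.absNorm I' ≤ n := by
      have h1 : Ideal.absNorm I = Ideal.absNorm (P.asIdeal.map (algebraMap (𝓞 F) (𝓞 N))) *
          Ideal.absNorm I' := by rw [hI', map_mul]
      have h2 : Ideal.absNorm (P.asIdeal.map (algebraMap (𝓞 F) (𝓞 N))) ≠ 0 :=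
        Ideal.absNorm_eq_zero_iff.not.mpr hmap0
      have h3 : Ideal.absNorm (P.asIdeal.map (algebraMap (𝓞 F) (𝓞 N))) ≠ 1 := by
        rw [ne_eq, Ideal.absNorm_eq_one_iff]
        intro h
        have hlt : P.asIdeal.map (algebraMap (𝓞 F) (𝓞 N)) ≤ M :=
          Ideal.map_le_iff_le_comap.mpr hP.over.le
        exact hM.ne_top (top_le_iff.mp (h ▸ hlt))
      have h4 : 0 < Ideal.absNorm I' := Nat.pos_of_ne_zero (Ideal.absNorm_eq_zero_iff.not.mpr hI'0)
      have h5 : 2 * Ideal.absNorm I' ≤ Ideal.absNorm I := by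
        rw [h1]; exact Nat.mul_le_mul_right _ (by omega)
      omega
    obtain ⟨J, hJ⟩ := ih I' hI'0 hnorm hinv'
    exact ⟨P.asIdeal * J, by rw [Ideal.map_mul, ← hJ, hI']⟩

theorem principal_of_invariant [IsGalois F N]
    (hunr : ∀ (P : HeightOneSpectrum (𝓞 F)) (P' : HeightOneSpectrum (𝓞 N)),
      ¬ P'.asIdeal ^ 2 ∣ P.asIdeal.map (algebraMap (𝓞 F) (𝓞 N)))
    (hcl : (finrank F N).Coprime (classNumber F)) {e : 𝓞 N} (he : e ≠ 0)
    (hinv : ∀ g : Gal(N/F), ∃ u : (𝓞 N)ˣ, g • e = u * e) :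
    ∃ (b : 𝓞 F) (u : (𝓞 N)ˣ), e = u * algebraMap (𝓞 F) (𝓞 N) b := by
  have hI : Ideal.span {e} ≠ ⊥ := by
    rwa [ne_eq, Ideal.span_singleton_eq_bot]
  obtain ⟨J, hJ⟩ := descend hunr _ (Ideal.span {e}) hI le_rfl (by
    intro g
    obtain ⟨u, hu⟩ := hinv g
    rw [Ideal.pointwise_smul_def, Ideal.map_span, Set.image_singleton]
    have h1 : (MulSemiringAction.toRingHom Gal(N/F) (𝓞 N) g) e = u * e := hu
    rw [h1]
    exact Ideal.span_singleton_mul_left_unit u.isUnit e)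
  have h1 := congrArg (Ideal.relNorm (𝓞 F)) hJ
  rw [Ideal.relNorm_singleton, Ideal.relNorm_algebraMap] at h1
  have hfr : finrank (𝓞 F) (𝓞 N) = finrank F N := by
    rw [← IsFractionRing.finrank_eq (𝓞 F) F (𝓞 N) N]
  rw [hfr] at h1
  have h2 : (J ^ finrank F N).IsPrincipal := ⟨⟨_, h1.symm⟩⟩
  have h3 := Ideal.IsPrincipal.of_isPrincipal_pow_of_coprime hcl h2
  obtain ⟨b, hb⟩ := h3.principal
  have hb' : J = Ideal.span {b} := hb
  rw [hb', Ideal.map_span, Set.image_singleton, Ideal.span_singleton_eq_span_singleton] at hJ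
  obtain ⟨u, hu⟩ := hJ.symm
  exact ⟨b, u, by rw [← hu, mul_comm]⟩

end FermGK
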