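import Pool.Agent.Lib.MP_2f3286_ag.GK.Hil
import Pool.Agent.Lib.MP_2f3286_ag.GK.Inv

/-! There is no unramified Galois extension of degree `p` of a field with the `p`-th roots of unity
and class number prime to `p` (`p` odd). -/

open NumberField Module IsDedekindDomain

namespace FermGK

variable {F N : Type*} [Field F] [NumberField F] [Field N] [NumberField N] [Algebra F N]

theorem two_mul_card {K : Type*} [Field K] [NumberField K] {p : ℕ} (hp2 : 2 < p) {ζ : K}
    (hζ : IsPrimitiveRoot ζ p) : 2 * Fintype.card (InfinitePlace K) = finrank ℚ K := by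
  have h1 := NumberField.InfinitePlace.IsPrimitiveRoot.nrRealPlaces_eq_zero_of_two_lt hp2 hζ
  have h2 := InfinitePlace.card_add_two_mul_card_eq_rank K
  have h3 := InfinitePlace.card_eq_nrRealPlaces_add_nrComplexPlaces K
  omega

theorem no_unram [IsGalois F N] {p : ℕ} (hp : p.Prime) (hp2 : 2 < p) {ζ : F}
    (hζ : IsPrimitiveRoot ζ p) (hfin : finrank F N = p) (hcl : p.Coprime (classNumber F))
    (hunr : ∀ (P : HeightOneSpectrum (𝓞 F)) (P' : HeightOneSpectrum (𝓞 N)),
      ¬ P'.asIdeal ^ 2 ∣ P.asIdeal.map (algebraMap (𝓞 F) (𝓞 N))) : False := by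
  classical
  have hcard : Nat.card Gal(N/F) = p := (IsGalois.card_aut_eq_finrank F N).trans hfin
  have hfact : Fact p.Prime := ⟨hp⟩
  have hcyc : IsCyclic Gal(N/F) := isCyclic_of_prime_card hcard
  obtain ⟨g, hgen⟩ := hcyc.exists_generator
  have hord : orderOf g = p := (orderOf_eq_card_of_forall_mem_zpowers hgen).trans hcard
  have hζ' : IsPrimitiveRoot (algebraMap F N ζ) p :=
    hζ.map_of_injective (FaithfulSMul.algebraMap_injective F N)
  have hcF := two_mul_card hp2 hζ
  have hcN := two_mul_card hp2 hζ'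
  have htower := finrank_mul_finrank ℚ F N
  rw [← hcF, ← hcN, hfin] at htower
  have hcard2 : Fintype.card (InfinitePlace N) = p * Fintype.card (InfinitePlace F) := by
    have h1 : 2 * (p * Fintype.card (InfinitePlace F)) = 2 * Fintype.card (InfinitePlace N) := by
      rw [← htower]; ring
    omega
  have hposF : 0 < Fintype.card (InfinitePlace F) := Fintype.card_pos
  have hposN : 0 < Fintype.card (InfinitePlace N) := Fintype.card_pos
  have hrN : finrank ℤ (Additive (𝓞 N)ˣ) + 1 = p * Fintype.card (InfinitePlace F) := by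
    rw [Units.finrank_eq, Units.rank, ← hcard2]
    omega
  have hrF : finrank ℤ (AddMonoidHom.ker (sg g - 1 : AddMonoid.End (Additive (𝓞 N)ˣ))) + 1 =
      Fintype.card (InfinitePlace F) := by
    rw [← (kerEquiv g hgen).toIntLinearEquiv.finrank_eq, Units.finrank_eq, Units.rank]
    omega
  obtain ⟨a, ha1, ha2⟩ := herbrand hp hposF hrN (sg g) (sg_pow_eq_one g hord) hrF
  apply ha2
  set η : (𝓞 N)ˣ := a.toMul with hη
  have hnorm : ∏ i ∈ Finset.range p, (g ^ i) • (η : 𝓞 N) = 1 := by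
    have h1 := congrArg (fun z : Additive (𝓞 N)ˣ => ((z.toMul : (𝓞 N)ˣ) : 𝓞 N)) ha1
    have h2 : ((((∑ i ∈ Finset.range p, (sg g ^ i) a).toMul : (𝓞 N)ˣ)) : 𝓞 N) =
        ∏ i ∈ Finset.range p, (g ^ i) • (η : 𝓞 N) := by
      rw [toMul_sum, Units.coe_prod]
      exact Finset.prod_congr rfl (fun i _ => sg_pow_val g i a)
    rw [← h2]
    exact h1
  obtain ⟨e, he0, he⟩ := hilb90_int g hp.pos hord hnorm
  -- the ideal of e is invariant
  have hge : g • e = ((η⁻¹ : (𝓞 N)ˣ) : 𝓞 N) * e := by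
    have h1 : ((η⁻¹ : (𝓞 N)ˣ) : 𝓞 N) * ((η : 𝓞 N) * g • e) = ((η⁻¹ : (𝓞 N)ˣ) : 𝓞 N) * e := by
      rw [he]
    rwa [← mul_assoc, Units.inv_mul, one_mul] at h1
  have hpow : ∀ n : ℕ, ∃ u : (𝓞 N)ˣ, (g ^ n) • e = u * e := by
    intro n
    induction n with
    | zero => exact ⟨1, by rw [pow_zero, one_smul, Units.val_one, one_mul]⟩
    | succ n ih =>
      obtain ⟨u, hu⟩ := ih
      refine ⟨(((sg g) (Additive.ofMul u)).toMul : (𝓞 N)ˣ) * η⁻¹, ?_⟩
      rw [pow_succ', mul_smul, hu, smul_mul', hge, Units.val_mul, sg_val, mul_assoc]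
      rfl
  have hinv : ∀ h : Gal(N/F), ∃ u : (𝓞 N)ˣ, h • e = u * e := by
    intro h
    obtain ⟨n, hn⟩ := (Submonoid.mem_powers_iff _ _).mp
      (mem_powers_iff_mem_zpowers.mpr (hgen h))
    rw [← hn]
    exact hpow n
  obtain ⟨b, u, hbu⟩ := principal_of_invariant hunr (by rw [hfin]; exact hcl) he0 hinv
  -- the contradiction
  have hb0 : algebraMap (𝓞 F) (𝓞 N) b ≠ 0 := by
    intro h
    rw [h, mul_zero] at hbu
    exact he0 hbu
  have hgb : g • algebraMap (𝓞 F) (𝓞 N) b = algebraMap (𝓞 F) (𝓞 N) b := by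
    apply RingOfIntegers.ext
    change g (algebraMap F N (b : F)) = algebraMap F N (b : F)
    exact g.commutes _
  have hu : (η : 𝓞 N) * g • (u : 𝓞 N) = u := by
    have h1 := he
    rw [hbu, smul_mul', hgb, ← mul_assoc] at h1
    exact mul_right_cancel₀ hb0 h1
  refine ⟨-(Additive.ofMul u), ?_⟩
  have h2 : a + sg g (Additive.ofMul u) = Additive.ofMul u := by
    apply Additive.toMul.injective
    apply Units.ext
    exact hu
  rw [map_neg]
  have h3 : a = Additive.ofMul u - sg g (Additive.ofMul u) := eq_sub_of_add_eq h2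
  rw [h3]
  abel

end FermGK
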