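import Mathlib

/-! A criterion for a prime to be unramified: a root of a polynomial with integral coefficients at
the prime whose derivative is a unit. -/

open Polynomial NumberField IsDedekindDomain Module

namespace FermGK

variable {F N : Type*} [Field F] [NumberField F] [Field N] [NumberField N] [Algebra F N]

theorem exists_common_denom (P : HeightOneSpectrum (𝓞 F)) (s : Finset ℕ) (f : ℕ → F)
    (hf : ∀ i, P.valuation F (f i) ≤ 1) :
    ∃ t : 𝓞 F, t ∉ P.asIdeal ∧ ∀ i ∈ s, ∃ r : 𝓞 F, algebraMap (𝓞 F) F r =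
      f i * algebraMap (𝓞 F) F t := by
  classical
  induction s using Finset.induction_on with
  | empty => exact ⟨1, fun h => P.isPrime.ne_top ((Ideal.eq_top_iff_one _).mpr h), by simp⟩
  | insert a s _ ih =>
    obtain ⟨t, ht, h⟩ := ih
    obtain ⟨n, d, hnd⟩ := HeightOneSpectrum.exists_primeCompl_mul_eq_of_integer P (f a) (hf a)
    refine ⟨t * d, fun hm => ?_, fun i hi => ?_⟩
    · rcases P.isPrime.mem_or_mem hm with h1 | h1
      · exact ht h1
      · exact d.2 h1
    · rcases Finset.mem_insert.mp hi with rfl | hi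
      · exact ⟨t * n, by rw [map_mul, map_mul, ← hnd]; ring⟩
      · obtain ⟨r, hr⟩ := h i hi
        exact ⟨r * d, by rw [map_mul, map_mul, hr]; ring⟩

theorem derivative_scaleRoots {G : F[X]} (t : F) :
    derivative (scaleRoots G t) = scaleRoots (derivative G) t := by
  have : CharZero F := inferInstance
  ext i
  rw [coeff_derivative, coeff_scaleRoots, coeff_scaleRoots, coeff_derivative,
    natDegree_derivative]
  have : G.natDegree - (i + 1) = G.natDegree - 1 - i := by omega
  rw [this]
  ring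

theorem unram_of_poly (P : HeightOneSpectrum (𝓞 F)) (P' : HeightOneSpectrum (𝓞 N))
    (G : F[X]) (hG : G.Monic) (hint : ∀ i, P.valuation F (G.coeff i) ≤ 1) {θ : N}
    (hθ : aeval θ G = 0) (htop : IntermediateField.adjoin F {θ} = ⊤)
    (hder : P'.valuation N (aeval θ (derivative G)) = 1) :
    ¬ P'.asIdeal ^ 2 ∣ P.asIdeal.map (algebraMap (𝓞 F) (𝓞 N)) := by
  intro hram
  have hprime' := P'.isPrime
  have hmax : P.asIdeal.IsMaximal := P.isMaximal
  obtain ⟨t, ht, hc⟩ := exists_common_denom P (Finset.range (G.natDegree + 1)) G.coeff hint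
  have hle : P.asIdeal.map (algebraMap (𝓞 F) (𝓞 N)) ≤ P'.asIdeal :=
    (Ideal.le_of_dvd hram).trans (Ideal.pow_le_self two_ne_zero)
  have hlo : P'.asIdeal.under (𝓞 F) = P.asIdeal := by
    refine (hmax.eq_of_le (Ideal.IsPrime.ne_top inferInstance) ?_).symm
    exact Ideal.map_le_iff_le_comap.mp hle
  have ht0 : t ≠ 0 := by
    rintro rfl
    exact ht P.asIdeal.zero_mem
  have ht0' : algebraMap (𝓞 F) F t ≠ 0 := by
    rwa [ne_eq, FaithfulSMul.algebraMap_eq_zero_iff]
  have htP' : algebraMap (𝓞 F) (𝓞 N) t ∉ P'.asIdeal := by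
    intro h
    apply ht
    rw [← hlo]
    exact h
  set H : F[X] := scaleRoots G (algebraMap (𝓞 F) F t) with hH
  -- the coefficients of H are integral
  have hlift : ∀ i, ∃ r : 𝓞 F, algebraMap (𝓞 F) F r = H.coeff i := by
    intro i
    rw [hH, coeff_scaleRoots]
    rcases lt_trichotomy i G.natDegree with h | h | h
    · obtain ⟨r, hr⟩ := hc i (Finset.mem_range.mpr (by omega))
      refine ⟨r * t ^ (G.natDegree - i - 1), ?_⟩
      rw [map_mul, map_pow, hr, mul_assoc, ← pow_succ', Nat.sub_add_cancel (by omega)]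
    · subst h
      refine ⟨1, ?_⟩
      rw [map_one, hG.coeff_natDegree, Nat.sub_self, pow_zero, one_mul]
    · refine ⟨0, ?_⟩
      rw [map_zero, coeff_eq_zero_of_natDegree_lt h, zero_mul]
  have hHm : H.Monic := (monic_scaleRoots_iff _).mpr hG
  have hHl : H ∈ Polynomial.lifts (algebraMap (𝓞 F) F) := by
    rw [Polynomial.lifts_iff_coeff_lifts]
    intro i
    obtain ⟨r, hr⟩ := hlift i
    exact ⟨r, hr⟩
  obtain ⟨H₀, hH₀, -, hH₀m⟩ := Polynomial.lifts_and_degree_eq_and_monic hHl hHm
  set x' : N := algebraMap F N (algebraMap (𝓞 F) F t) * θ with hx'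
  have hx'H : aeval x' H = 0 := scaleRoots_aeval_eq_zero hθ
  have hint' : IsIntegral (𝓞 F) x' := by
    refine ⟨H₀, hH₀m, ?_⟩
    rw [← aeval_def]
    rw [← aeval_map_algebraMap F, hH₀, hx'H]
  have hint : IsIntegral ℤ x' := isIntegral_trans x' hint'
  set X' : 𝓞 N := ⟨x', hint⟩ with hX'
  have hXx : algebraMap (𝓞 N) N X' = x' := rfl
  have htop' : IntermediateField.adjoin F {x'} = ⊤ := by
    rw [← top_le_iff, ← htop, IntermediateField.adjoin_simple_le_iff]
    have h1 : θ = algebraMap F N (algebraMap (𝓞 F) F t)⁻¹ * x' := by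
      rw [hx', ← mul_assoc, ← map_mul, inv_mul_cancel₀ ht0', map_one, one_mul]
    rw [h1]
    exact mul_mem (IntermediateField.algebraMap_mem _ _)
      (IntermediateField.mem_adjoin_simple_self F x')
  have hadj : Algebra.adjoin F {algebraMap (𝓞 N) N X'} = ⊤ := by
    rw [hXx, ← IntermediateField.adjoin_simple_toSubalgebra_of_isAlgebraic
      (Algebra.IsAlgebraic.isAlgebraic x'), htop', IntermediateField.top_toSubalgebra]
  have h1 := aeval_derivative_mem_differentIdeal (𝓞 F) F N X' hadj
  have h2 := pow_sub_one_dvd_differentIdeal (𝓞 F) P'.asIdeal 2 P.ne_bot hram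
  have h3 : aeval X' (derivative (minpoly (𝓞 F) X')) ∈ P'.asIdeal := by
    rw [show 2 - 1 = 1 from rfl, pow_one, Ideal.dvd_iff_le] at h2
    exact h2 h1
  have hintX : IsIntegral (𝓞 F) X' := Algebra.IsIntegral.isIntegral X'
  have hXH : aeval X' H₀ = 0 := by
    apply FaithfulSMul.algebraMap_injective (𝓞 N) N
    rw [map_zero, ← aeval_algebraMap_apply, hXx, ← aeval_map_algebraMap F, hH₀, hx'H]
  have h4 : minpoly (𝓞 F) X' ∣ H₀ := minpoly.isIntegrallyClosed_dvd hintX hXH
  obtain ⟨g, hg⟩ := h4
  have h5 : aeval X' (derivative H₀) =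
      aeval X' (derivative (minpoly (𝓞 F) X')) * aeval X' g := by
    have h6 := congrArg (fun p => aeval X' (derivative p)) hg
    simp only [derivative_mul, map_add, map_mul, minpoly.aeval, zero_mul, add_zero] at h6
    exact h6
  have h7 : aeval X' (derivative H₀) ∈ P'.asIdeal := by
    rw [h5]
    exact Ideal.mul_mem_right _ _ h3
  have h8 : algebraMap (𝓞 N) N (aeval X' (derivative H₀)) =
      algebraMap F N (algebraMap (𝓞 F) F t) ^ (derivative G).natDegree *
        aeval θ (derivative G) := by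
    rw [← aeval_algebraMap_apply, hXx, ← aeval_map_algebraMap F, ← derivative_map, hH₀, hH,
      derivative_scaleRoots, aeval_def, hx', scaleRoots_eval₂_mul, ← aeval_def]
  have h9 : P'.valuation N (algebraMap (𝓞 N) N (aeval X' (derivative H₀))) < 1 :=
    (HeightOneSpectrum.valuation_lt_one_iff_mem P' _).mpr h7
  rw [h8, map_mul, map_pow, hder, mul_one, ← IsScalarTower.algebraMap_apply (𝓞 F) F N,
    IsScalarTower.algebraMap_apply (𝓞 F) (𝓞 N) N,
    (HeightOneSpectrum.valuation_eq_one_iff_notMem P').mpr htP', one_pow] at h9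
  exact lt_irrefl _ h9

end FermGK
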